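import Pool.Agent.H44.DV.Targets

set_option autoImplicit false

namespace Pool.Agent.H50.DV

open Pool.Agent.H44.DU Pool.Agent.H44.DU.Surf

theorem pf_CP (_h : T_PT) : D_CP := by
  intro n S s t z W j hrun
  have hwd : wd W (j + 1) = wd W j ++ [W j] := by
    simp [wd, List.range_succ]
  rw [hwd, S.run_append, S.run_single] at hrun
  obtain ⟨-, -, h1, h2⟩ := hrun
  have hApos := S.A_pos (wd W j)
  have hA := hApos.ne'
  have hgdef : S.g s (wd W j) (xi s z) = S.A (wd W j) * xi s z + xi s (S.B (wd W j)) := rfl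
  have hD : 0 < xi s (S.P (W j)) - xi s (S.Q (W j)) := by linarith
  have hlam : S.lam s (W j) (S.g s (wd W j) (xi s z)) =
      (xi s (S.P (W j)) - S.g s (wd W j) (xi s z)) / (xi s (S.P (W j)) - xi s (S.Q (W j))) := rfl
  have hl : S.lam s (W j) (S.g s (wd W j) (xi s z)) * (xi s (S.P (W j)) - xi s (S.Q (W j))) =
      xi s (S.P (W j)) - S.g s (wd W j) (xi s z) := by
    rw [hlam, div_mul_cancel₀ _ hD.ne']
  refine ⟨S.lam s (W j) (S.g s (wd W j) (xi s z)), ?_, ?_, ?_⟩
  · rw [hlam]; exact div_pos (by linarith) hD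
  · rw [hlam, div_lt_one hD]; linarith
  · have hrc : S.rc t W j = (xi t (S.P (W j)) - xi t (S.B (wd W j))) / S.A (wd W j) := by
      rw [rc, dev, xi_div, xi_sub]
    have hlc : S.lc t W j = (xi t (S.Q (W j)) - xi t (S.B (wd W j))) / S.A (wd W j) := by
      rw [lc, dev, xi_div, xi_sub, P_nx]
    have hhj : S.hj s W z j = ((S.pt s (W j) (S.g s (wd W j) (xi s z))).im -
        (S.B (wd W j)).im) / S.A (wd W j) - z.im := rfl
    have hpt : (S.pt s (W j) (S.g s (wd W j) (xi s z))).im = (S.P (W j)).im +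
        S.lam s (W j) (S.g s (wd W j) (xi s z)) * ((S.Q (W j)).im - (S.P (W j)).im) := by
      simp [pt]
    rw [hrc, hlc, hhj, hpt]
    generalize S.lam s (W j) (S.g s (wd W j) (xi s z)) = l at hl ⊢
    rw [hgdef] at hl
    simp only [xi] at hl ⊢
    generalize S.A (wd W j) = α at hl hA ⊢
    field_simp
    linear_combination -hl

end Pool.Agent.H50.DV
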